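import Pool.Agent.SpecR.Final

/-!
# MP_1824d7_lc, Q1: no sentence of `L_{ω₁ω₁}` defines the lattices of real spectra at size `ℵ₁`

For every sentence `φ` of `L_{ω₁ω₁}` in the signature `(∨, ∧, 0, 1)` there is a structure of
cardinality at most `ℵ₁` on which `φ` and the property of being isomorphic to the lattice of the
quasi-compact open subsets of the real spectrum of some ring disagree.
-/

set_option autoImplicit false

namespace Pool.Agent.Results.MP_1824d7_lc.NoSentence

open Pool.Agent.SpecR

universe u

theorem result (φ : Fml) (_hφ : φ.free = ∅) :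
    ∃ D : LStr, Cardinal.mk D.carrier ≤ Cardinal.aleph 1 ∧ ¬ (Models D φ ↔ Rep.{u} D) :=
  main φ

end Pool.Agent.Results.MP_1824d7_lc.NoSentence
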